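import Pool.Agent.W544.MO.Ho
import Pool.Agent.W161.MO.MR3
import Pool.Agent.W565.MOFS
import Pool.Agent.W761.MO.BTR
import Pool.Agent.TH977.PW.Hered

/-!
# Squarefree numbers with one prime factor `> n^(1/2+τ)` and no small prime factors in all
intervals of length `x^(1/2-δ)`
-/

set_option autoImplicit false

namespace Pool.Agent.Y675.HO

open Finset Filter
open scoped Classical
open Pool.Agent.W76.MO
open Pool.Agent.TH977.PW (N)


theorem hosts : Hosts :=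
  Pool.Agent.W544.MO.main Pool.Agent.W761.MO.btr (Pool.Agent.W161.MO.midRange Pool.Agent.W565.MOFS.FS)

/-- squarefree, not a prime, all prime factors `> n^γ`, one prime factor `> n^(1/2+τ)` -/
def P (τ γ : ℝ) : Set ℕ := {n | Squarefree n ∧ ¬ n.Prime ∧
  (∀ p : ℕ, p.Prime → p ∣ n → (n : ℝ) ^ γ < (p : ℝ)) ∧
  ∃ q : ℕ, q.Prime ∧ q ∣ n ∧ (n : ℝ) ^ (1 / 2 + τ) < (q : ℝ)}

lemma two_rpow_lt {a b : ℝ} (h : a < b) : (2 : ℝ) ^ a < (2 : ℝ) ^ b :=
  Real.rpow_lt_rpow_of_exponent_lt one_lt_two h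

lemma two_rpow_le {a b : ℝ} (h : a ≤ b) : (2 : ℝ) ^ a ≤ (2 : ℝ) ^ b :=
  Real.rpow_le_rpow_of_exponent_le one_le_two h

/-- hosts belong to `P` -/
lemma host_mem {τ γ : ℝ} (hτ : 0 < τ) (hγ : 0 < γ) : ∃ i₀ : ℕ, ∀ i n : ℕ, i₀ ≤ i → n ≤ 2 ^ (i + 2) →
    HostNum τ γ i n → n ∈ P (τ / 2) (min (γ / 2) (1 / 4)) := by
  obtain ⟨i₀, hi₀⟩ := exists_nat_gt (4 / τ + 4)
  refine ⟨i₀, fun i n hi hn hh => ?_⟩
  have hir : 4 / τ + 4 < (i : ℝ) := lt_of_lt_of_le hi₀ (by exact_mod_cast hi)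
  have hi4 : (4 : ℝ) < i := lt_of_le_of_lt (by have : 0 < 4 / τ := by positivity
                                               linarith) hir
  have hτi : 4 < τ * i := by
    have h1 : 4 / τ < (i : ℝ) := by linarith
    rw [div_lt_iff₀ hτ] at h1
    linarith
  obtain ⟨m, q, rfl, hq, hq2, hm1, hms, hmr⟩ := hh
  have hm0 : 0 < m := by omega
  have hq0 : 0 < q := hq.pos
  have hnr : ((m * q : ℕ) : ℝ) ≤ (2 : ℝ) ^ ((i : ℝ) + 2) := by
    have : ((m * q : ℕ) : ℝ) ≤ ((2 ^ (i + 2) : ℕ) : ℝ) := by exact_mod_cast hn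
    refine this.trans (le_of_eq ?_)
    push_cast
    rw [← Real.rpow_natCast]
    push_cast
    rfl
  have hn0 : (0 : ℝ) ≤ ((m * q : ℕ) : ℝ) := Nat.cast_nonneg _
  have hpow : ∀ e : ℝ, 0 ≤ e → ((m * q : ℕ) : ℝ) ^ e ≤ (2 : ℝ) ^ (((i : ℝ) + 2) * e) := by
    intro e he
    rw [Real.rpow_mul (by norm_num)]
    exact Real.rpow_le_rpow hn0 hnr he
  -- `m < q`
  have hmq : m < q := by
    have h1 : (m : ℝ) * q ≤ (2 : ℝ) ^ ((i : ℝ) + 2) := by
      have := hnr
      push_cast at this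
      exact this
    have h2 : (2 : ℝ) ^ ((i : ℝ) + 2) < (q : ℝ) * q := by
      have h3 : (2 : ℝ) ^ ((1 / 2 + τ) * (i : ℝ)) * (2 : ℝ) ^ ((1 / 2 + τ) * (i : ℝ)) ≤
          (q : ℝ) * q := mul_le_mul hq2 hq2 (by positivity) (by positivity)
      refine lt_of_lt_of_le ?_ h3
      rw [← Real.rpow_add (by norm_num)]
      exact two_rpow_lt (by nlinarith)
    have h3 : (m : ℝ) * q < (q : ℝ) * q := lt_of_le_of_lt h1 h2
    have hq0' : (0 : ℝ) < q := by exact_mod_cast hq0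
    have h4 : (m : ℝ) < q := lt_of_mul_lt_mul_right h3 hq0'.le
    exact_mod_cast h4
  have hcop : Nat.Coprime m q := by
    rw [Nat.coprime_comm]
    exact (Nat.Prime.coprime_iff_not_dvd hq).2 (fun hd => by
      have := Nat.le_of_dvd hm0 hd
      omega)
  have hγ' : 0 < min (γ / 2) (1 / 4 : ℝ) := lt_min (by positivity) (by norm_num)
  refine ⟨(Nat.squarefree_mul hcop).2 ⟨hms, hq.squarefree⟩, ?_, ?_, q, hq, dvd_mul_left q m, ?_⟩
  · exact Nat.not_prime_mul (by omega) hq.one_lt.ne'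
  · intro p hp hpd
    rcases (Nat.Prime.dvd_mul hp).1 hpd with h | h
    · have h1 := hmr p hp h
      refine lt_of_lt_of_le (lt_of_le_of_lt (hpow _ hγ'.le) ?_) h1
      refine two_rpow_lt ?_
      have h2 : min (γ / 2) (1 / 4 : ℝ) ≤ γ / 2 := min_le_left _ _
      nlinarith
    · have h0 : p = q := (Nat.prime_dvd_prime_iff_eq hp hq).1 h
      rw [h0]
      refine lt_of_lt_of_le (lt_of_le_of_lt (hpow _ hγ'.le) ?_) hq2
      refine two_rpow_lt ?_
      have h2 : min (γ / 2) (1 / 4 : ℝ) ≤ 1 / 4 := min_le_right _ _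
      nlinarith
  · refine lt_of_lt_of_le (lt_of_le_of_lt (hpow _ (by positivity)) ?_) hq2
    refine two_rpow_lt ?_
    nlinarith

/-- the number of elements of a set is superadditive -/
lemma N_add (A : Set ℕ) (a b c : ℕ) (hab : a ≤ b) (hbc : b ≤ c) : N A a b + N A b c = N A a c := by
  unfold N
  rw [← card_union_of_disjoint, ← filter_union]
  · congr 2
    ext m
    simp only [mem_union, mem_Ioc]
    omega
  · rw [disjoint_left]
    intro m hm hm'
    rw [mem_filter, mem_Ioc] at hm hm'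
    omega

lemma N_le_of_le (A : Set ℕ) (a b c : ℕ) (hab : a ≤ b) (hbc : b ≤ c) : N A a b ≤ N A a c := by
  rw [← N_add A a b c hab hbc]
  omega

lemma N_le_of_le' (A : Set ℕ) (a b c : ℕ) (hab : a ≤ b) (hbc : b ≤ c) : N A b c ≤ N A a c := by
  rw [← N_add A a b c hab hbc]
  omega

/-- many consecutive cells -/
lemma N_cells (A : Set ℕ) (a h k : ℕ) (c : ℝ)
    (hc : ∀ j < k, c ≤ (N A (a + j * h) (a + j * h + h) : ℝ)) : k * c ≤ (N A a (a + k * h) : ℝ) := by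
  induction k with
  | zero => simp
  | succ k ih =>
    have h1 := ih (fun j hj => hc j (by omega))
    have h2 := hc k (by omega)
    have h3 : N A a (a + (k + 1) * h) = N A a (a + k * h) + N A (a + k * h) (a + k * h + h) := by
      have e : a + (k + 1) * h = a + k * h + h := by ring
      rw [e, N_add A a (a + k * h) _ (by omega) (by omega)]
    rw [h3]
    push_cast
    linarith

/-- lower bound inside one block -/
lemma block : ∃ τ γ c δ : ℝ, 0 < τ ∧ 0 < γ ∧ 0 < c ∧ 0 < δ ∧ δ < 1 / 4 ∧ ∃ i₀ : ℕ, 1 ≤ i₀ ∧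
    ∀ i a L : ℕ, i₀ ≤ i → 2 ^ i ≤ a → a + L ≤ 2 ^ (i + 1) → hh δ i ≤ L →
      c * L / i ≤ (N (P τ γ) a (a + L) : ℝ) := by
  obtain ⟨τ, γ, c, δ₀, hτ, hγ, hc, hδ₀, hH⟩ := hosts
  obtain ⟨i₁, h1, hi₁⟩ := hH (min δ₀ (1 / 8)) (lt_min hδ₀ (by norm_num)) (min_le_left _ _)
  obtain ⟨i₂, hi₂⟩ := host_mem hτ hγ
  have hδ : 0 < min δ₀ (1 / 8 : ℝ) := lt_min hδ₀ (by norm_num)
  have hδ' : min δ₀ (1 / 8 : ℝ) < 1 / 4 := lt_of_le_of_lt (min_le_right _ _) (by norm_num)
  set δ := min δ₀ (1 / 8 : ℝ) with hδdef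
  refine ⟨τ / 2, min (γ / 2) (1 / 4), c / 2, δ, by positivity, lt_min (by positivity) (by norm_num),
    by positivity, hδ, hδ', i₁ + i₂ + 1, by omega, fun i a L hi ha haL hL => ?_⟩
  have hh0 : 0 < hh δ i := by unfold hh; positivity
  set h := hh δ i with hhdef
  set k := L / h with hk
  have hk1 : 1 ≤ k := (Nat.one_le_div_iff hh0).2 hL
  have hkL : k * h ≤ L := Nat.div_mul_le_self L h
  have hLk : L < (k + 1) * h := by
    have := Nat.lt_div_mul_add hh0 (a := L)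
    rw [← hk] at this
    linarith [add_mul k 1 h]
  have hcells := N_cells (P (τ / 2) (min (γ / 2) (1 / 4))) a h k (c * h / i) (by
    intro j hj
    have e1 : j * h + h ≤ L := by
      have : (j + 1) * h ≤ k * h := Nat.mul_le_mul_right h hj
      linarith [add_mul j 1 h]
    have h2 := hi₁ i (by omega) (a + j * h) (by omega) (by omega)
    refine h2.trans ?_
    unfold N
    have : ((Ioc (a + j * h) (a + j * h + h)).filter (HostNum τ γ i)).card ≤
        ((Ioc (a + j * h) (a + j * h + h)).filter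
          (fun m => m ∈ P (τ / 2) (min (γ / 2) (1 / 4)))).card := by
      refine card_le_card fun n hn => ?_
      rw [mem_filter] at hn ⊢
      refine ⟨hn.1, hi₂ i n (by omega) ?_ hn.2⟩
      have h3 := (mem_Ioc.1 hn.1).2
      have h4 : 2 ^ (i + 1) ≤ 2 ^ (i + 2) := Nat.pow_le_pow_right (by norm_num) (by omega)
      omega
    exact_mod_cast this)
  have h5 : (N (P (τ / 2) (min (γ / 2) (1 / 4))) a (a + k * h) : ℝ) ≤
      N (P (τ / 2) (min (γ / 2) (1 / 4))) a (a + L) := by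
    exact_mod_cast N_le_of_le _ a (a + k * h) (a + L) (by omega) (by omega)
  refine le_trans ?_ (hcells.trans h5)
  have hi0 : (0 : ℝ) < i := by
    have : 0 < i := by omega
    exact_mod_cast this
  have h6 : (L : ℝ) ≤ 2 * (k * h) := by
    have h7 : L ≤ 2 * (k * h) := by nlinarith
    exact_mod_cast h7
  rw [mul_div_assoc', div_le_div_iff_of_pos_right hi0]
  nlinarith

/-- **lower bound in all intervals `(x, x + y]`, `x^(1/2-δ) ≤ y ≤ x`** -/
theorem lower : ∃ τ γ c δ : ℝ, 0 < τ ∧ 0 < γ ∧ 0 < c ∧ 0 < δ ∧ δ < 1 / 4 ∧ ∀ᶠ x : ℕ in atTop,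
    ∀ y : ℕ, (x : ℝ) ^ (1 / 2 - δ) ≤ y → y ≤ x → c * y / Real.log x ≤ (N (P τ γ) x (x + y) : ℝ) := by
  obtain ⟨τ, γ, c, δ, hτ, hγ, hc, hδ, hδ', i₀, hi₀, hB⟩ := block
  refine ⟨τ, γ, c / 8, δ / 2, hτ, hγ, by positivity, by positivity, by linarith, ?_⟩
  have hlim : ∀ᶠ x : ℕ in atTop, (4 : ℝ) ≤ (x : ℝ) ^ (δ / 2) :=
    ((tendsto_rpow_atTop (by positivity)).comp tendsto_natCast_atTop_atTop).eventually_ge_atTop 4
  filter_upwards [hlim, eventually_ge_atTop (2 ^ (i₀ + 1))] with x hx4 hxi y hy hyx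
  have hx1 : 1 < x := lt_of_lt_of_le (Nat.one_lt_two_pow (by omega)) hxi
  have hx0 : x ≠ 0 := by omega
  set i := Nat.log 2 x with hi
  have h1 : 2 ^ i ≤ x := Nat.pow_log_le_self 2 hx0
  have h2 : x < 2 ^ (i + 1) := Nat.lt_pow_succ_log_self one_lt_two x
  have hii : i₀ ≤ i := by
    by_contra hcon
    have : 2 ^ (i + 1) ≤ 2 ^ (i₀ + 1) := Nat.pow_le_pow_right (by norm_num) (by omega)
    omega
  have hi1 : 1 ≤ i := by omega
  have hir : (1 : ℝ) ≤ i := by exact_mod_cast hi1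
  have hxr : (1 : ℝ) < x := by exact_mod_cast hx1
  have hxp : (0 : ℝ) < x := by linarith
  have hlog : 0 < Real.log x := Real.log_pos hxr
  -- `i ≤ 2 log x`
  have hil : (i : ℝ) ≤ 2 * Real.log x := by
    have h3 : ((2 ^ i : ℕ) : ℝ) ≤ x := by exact_mod_cast h1
    have h4 := Real.log_le_log (by positivity) h3
    push_cast at h4
    rw [Real.log_pow] at h4
    have h5 := Real.log_two_gt_d9
    nlinarith
  have hxp1 : (x : ℝ) ^ (1 / 2 - δ) * (x : ℝ) ^ (δ / 2) = (x : ℝ) ^ (1 / 2 - δ / 2) := by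
    rw [← Real.rpow_add hxp]
    congr 1
    ring
  have hxd0 : 0 < (x : ℝ) ^ (1 / 2 - δ) := Real.rpow_pos_of_pos hxp _
  have hy4 : 4 * (x : ℝ) ^ (1 / 2 - δ) ≤ y := by nlinarith
  have hhi : ∀ j : ℕ, ((2 : ℝ) ^ (j : ℝ)) ≤ 2 * x → ((hh δ j : ℕ) : ℝ) ≤ 2 * (x : ℝ) ^ (1 / 2 - δ) := by
    intro j hj
    have e1 : ((hh δ j : ℕ) : ℝ) ≤ (2 : ℝ) ^ ((1 / 2 - δ) * (j : ℝ)) := by
      unfold hh
      push_cast
      rw [← Real.rpow_natCast]
      refine two_rpow_le ?_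
      exact Nat.floor_le (mul_nonneg (by linarith) (Nat.cast_nonneg j))
    have e2 : (2 : ℝ) ^ ((1 / 2 - δ) * (j : ℝ)) = ((2 : ℝ) ^ (j : ℝ)) ^ (1 / 2 - δ) := by
      rw [← Real.rpow_mul (by norm_num), mul_comm]
    have e3 : ((2 : ℝ) ^ (j : ℝ)) ^ (1 / 2 - δ) ≤ (2 * (x : ℝ)) ^ (1 / 2 - δ) :=
      Real.rpow_le_rpow (by positivity) hj (by linarith)
    have e4 : (2 * (x : ℝ)) ^ (1 / 2 - δ) ≤ 2 * (x : ℝ) ^ (1 / 2 - δ) := by
      rw [Real.mul_rpow (by norm_num) hxp.le]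
      refine mul_le_mul_of_nonneg_right ?_ hxd0.le
      calc (2 : ℝ) ^ (1 / 2 - δ) ≤ 2 ^ (1 : ℝ) := two_rpow_le (by linarith)
        _ = 2 := Real.rpow_one 2
    linarith [e1, e2, e3, e4]
  have hpi : (2 : ℝ) ^ (i : ℝ) ≤ x := by
    rw [Real.rpow_natCast]
    exact_mod_cast h1
  have hpi1 : (2 : ℝ) ^ ((i + 1 : ℕ) : ℝ) ≤ 2 * x := by
    rw [Real.rpow_natCast, pow_succ]
    rw [Real.rpow_natCast] at hpi
    linarith
  have hfin : ∀ (L j : ℕ) (v : ℝ), (y : ℝ) ≤ 2 * L → 1 ≤ j → (j : ℝ) ≤ 2 * i → c * L / j ≤ v →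
      c / 8 * y / Real.log x ≤ v := by
    intro L j v hL hj1 hj hv
    refine le_trans ?_ hv
    have hj0 : (0 : ℝ) < j := by exact_mod_cast hj1
    rw [div_le_div_iff₀ hlog hj0]
    have h6 : (j : ℝ) ≤ 4 * Real.log x := by linarith
    have h7 : (0 : ℝ) ≤ L := Nat.cast_nonneg _
    calc c / 8 * y * j ≤ c / 8 * (2 * L) * (4 * Real.log x) := by gcongr
      _ = c * L * Real.log x := by ring
  rcases Nat.lt_or_ge (2 ^ (i + 1)) (x + y) with hcase | hcase
  · rcases le_total (y : ℕ) (2 * (2 ^ (i + 1) - x)) with h3 | h3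
    · -- the first part
      have h4 := hB i x (2 ^ (i + 1) - x) hii h1 (by omega) (by
        have h5 : ((hh δ i : ℕ) : ℝ) ≤ ((2 ^ (i + 1) - x : ℕ) : ℝ) := by
          have h6 := hhi i (by linarith)
          have h7 : (y : ℝ) ≤ 2 * ((2 ^ (i + 1) - x : ℕ) : ℝ) := by exact_mod_cast h3
          linarith
        exact_mod_cast h5)
      have h5 : N (P τ γ) x (x + (2 ^ (i + 1) - x)) ≤ N (P τ γ) x (x + y) :=
        N_le_of_le _ _ _ _ (by omega) (by omega)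
      refine hfin _ i _ (by exact_mod_cast h3) hi1 (by linarith) (h4.trans ?_)
      exact_mod_cast h5
    · -- the second part
      set L := x + y - 2 ^ (i + 1) with hL
      have hyL : y ≤ 2 * L := by omega
      have e : 2 ^ (i + 1) + L = x + y := by omega
      have e2 : 2 ^ (i + 1 + 1) = 2 * 2 ^ (i + 1) := by ring
      have h4 := hB (i + 1) (2 ^ (i + 1)) L (by omega) le_rfl (by omega) (by
        have h5 : ((hh δ (i + 1) : ℕ) : ℝ) ≤ (L : ℝ) := by
          have h6 := hhi (i + 1) hpi1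
          have h7 : (y : ℝ) ≤ 2 * (L : ℝ) := by exact_mod_cast hyL
          linarith
        exact_mod_cast h5)
      rw [e] at h4
      have h5 : N (P τ γ) (2 ^ (i + 1)) (x + y) ≤ N (P τ γ) x (x + y) :=
        N_le_of_le' _ _ _ _ (by omega) (by omega)
      refine hfin L (i + 1) _ (by exact_mod_cast hyL) (by omega) (by push_cast; linarith) (h4.trans ?_)
      exact_mod_cast h5
  · have h4 := hB i x y hii h1 hcase (by
      have h5 : ((hh δ i : ℕ) : ℝ) ≤ (y : ℝ) := by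
        have h6 := hhi i (by linarith)
        linarith
      exact_mod_cast h5)
    exact hfin y i _ (by have : (0 : ℝ) ≤ y := Nat.cast_nonneg _
                         linarith) hi1 (by linarith) h4

end Pool.Agent.Y675.HO
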