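import Pool.Agent.Y675.HO.Cnt
import Pool.Agent.Y677.KU.LinNarrow

/-!
# Squarefree numbers with one prime factor `> n^(1/2+τ)` and no small prime factors: consecutive
elements and narrow progressions
-/

set_option autoImplicit false

namespace Pool.Agent.Y675.HO

open Finset Filter
open scoped Classical
open Pool.Agent.TH977.PW (N)
open Pool.Agent.Y677.RSZ (InProg Outside)

/-- the square roots of consecutive elements of a set which has an element in all `(x, x+y]` -/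
lemma sqrt_gap (A : Set ℕ) (δ : ℝ) (hδ : 0 < δ) (hδ' : δ < 1 / 2)
    (h : ∀ᶠ x : ℕ in atTop, ∀ y : ℕ, (x : ℝ) ^ (1 / 2 - δ) ≤ y → y ≤ x →
      (0 : ℝ) < (N A x (x + y) : ℝ)) :
    ∃ n₀ : ℕ, ∀ n n' : ℕ, n₀ ≤ n → n < n' → (∀ m : ℕ, n < m → m < n' → m ∉ A) →
      Real.sqrt n' - Real.sqrt n < (n : ℝ) ^ (-δ) := by
  obtain ⟨x₀, hx₀⟩ := eventually_atTop.1 h
  refine ⟨x₀ + 4, fun n n' hn hnn hm => ?_⟩
  have hn4 : (4 : ℝ) ≤ n := by
    have : 4 ≤ n := by omega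
    exact_mod_cast this
  have hn0 : (0 : ℝ) < n := by linarith
  set Y : ℝ := (n : ℝ) ^ (1 / 2 - δ) with hY
  have hY1 : 1 ≤ Y := Real.one_le_rpow (by linarith) (by linarith)
  have hYs : Y ≤ Real.sqrt n := by
    rw [Real.sqrt_eq_rpow]
    exact Real.rpow_le_rpow_of_exponent_le (by linarith) (by linarith)
  have hsq : Real.sqrt n * Real.sqrt n = n := Real.mul_self_sqrt hn0.le
  have hs2 : 2 ≤ Real.sqrt n := by
    have : Real.sqrt 4 ≤ Real.sqrt n := Real.sqrt_le_sqrt hn4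
    rwa [show (4 : ℝ) = 2 ^ 2 by norm_num, Real.sqrt_sq (by norm_num)] at this
  have hceil1 : Y ≤ (⌈Y⌉₊ : ℝ) := Nat.le_ceil Y
  have hceil2 : (⌈Y⌉₊ : ℝ) < Y + 1 := Nat.ceil_lt_add_one (by linarith)
  have hyn : ⌈Y⌉₊ ≤ n := by
    rw [Nat.ceil_le]
    nlinarith
  have h1 := hx₀ n (by omega) ⌈Y⌉₊ hceil1 hyn
  have h2 : 0 < N A n (n + ⌈Y⌉₊) := by exact_mod_cast h1
  unfold N at h2
  obtain ⟨m, hmm⟩ := card_pos.1 h2
  rw [mem_filter, mem_Ioc] at hmm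
  have h3 : n' ≤ m := by
    by_contra hcon
    exact hm m hmm.1.1 (by omega) hmm.2
  have h4 : (n' : ℝ) ≤ n + ⌈Y⌉₊ := by exact_mod_cast h3.trans hmm.1.2
  have h5 : (n' : ℝ) - n < Y + 1 := by linarith
  have hn'r : (n : ℝ) < n' := by exact_mod_cast hnn
  have h6 : Real.sqrt n < Real.sqrt n' := Real.sqrt_lt_sqrt hn0.le hn'r
  have hsq' : Real.sqrt n' * Real.sqrt n' = n' := Real.mul_self_sqrt (by linarith)
  have h7 : (n : ℝ) ^ (-δ) * Real.sqrt n = Y := by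
    rw [Real.sqrt_eq_rpow, ← Real.rpow_add hn0, hY]
    congr 1
    ring
  have hs0 : 0 < Real.sqrt n := by linarith
  by_contra hcon
  rw [not_lt] at hcon
  -- `n' - n = (√n' - √n) (√n' + √n) ≥ n^{-δ} 2 √n = 2 Y`
  have h8 : (n' : ℝ) - n = (Real.sqrt n' - Real.sqrt n) * (Real.sqrt n' + Real.sqrt n) := by
    linear_combination hsq - hsq'
  have h9 : (n : ℝ) ^ (-δ) * (2 * Real.sqrt n) ≤
      (Real.sqrt n' - Real.sqrt n) * (Real.sqrt n' + Real.sqrt n) := by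
    refine mul_le_mul hcon (by linarith) (by positivity) (by linarith)
  rw [← h8] at h9
  have h10 : (n : ℝ) ^ (-δ) * (2 * Real.sqrt n) = 2 * Y := by rw [← h7]; ring
  rw [h10] at h9
  linarith

/-- every subset of `P` -/
theorem hered (τ γ : ℝ) (hγ : 0 < γ) (θ : ℝ) (hθ : 0 < θ) (l : ℕ) (hl : 2 ≤ l) (η : ℝ) (hη : 0 < η) :
    ∃ B : ℕ, ∀ᶠ x : ℕ in atTop, ∀ y : ℕ, (x : ℝ) ^ θ ≤ y → y ≤ x → ∀ A : Set ℕ, A ⊆ P τ γ →
      (N (Outside A l (Real.log x ^ B) x (x + y)) x (x + y) : ℝ) ≤ η * y / Real.log x := by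
  obtain ⟨s, hs⟩ := exists_nat_gt (1 / γ)
  have hs0 : (0 : ℝ) < s := lt_trans (by positivity) hs
  have hs1 : 1 ≤ s := by
    have : 0 < s := by exact_mod_cast hs0
    omega
  obtain ⟨B, hB⟩ := Pool.Agent.Y677.KU.lin_hered s hs1 θ hθ l hl η hη
  refine ⟨B, ?_⟩
  filter_upwards [hB] with x hx y hy hyx A hA
  have h7 := hx 1 0 y le_rfl (Nat.coprime_one_right 0) (by simpa using hy) hyx A
    (fun n _ => Nat.modEq_one) (fun n hn p hp hpn => by
      obtain ⟨h1, _, h2, _⟩ := hA hn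
      have hn0 : n ≠ 0 := h1.ne_zero
      have hn1 : (1 : ℝ) ≤ n := by exact_mod_cast Nat.one_le_iff_ne_zero.2 hn0
      refine lt_of_le_of_lt ?_ (h2 p hp hpn)
      refine Real.rpow_le_rpow_of_exponent_le hn1 ?_
      rw [div_le_iff₀ hs0]
      rw [div_lt_iff₀ hγ] at hs
      linarith)
  rwa [Nat.totient_one, Nat.cast_one, one_mul, one_mul] at h7

end Pool.Agent.Y675.HO
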